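import Pool.Agent.P.MP_6f117a_ag.PJ.Final

/-! Smooth complete intersections of large degree are of general type. -/

set_option autoImplicit false

namespace Pool.Agent.P.MP_440ce3_nt.LV

open MvPolynomial Module Pool.Agent.P.MP_6f117a_ag PJ Mid Sum

universe u

variable {L K : Type u} [Field L] [Field K] [Algebra L K] {c d : ℕ}

theorem exists_minor {ι : Type} [Fintype ι] (A : Fin c → ι → L) (hA : LinearIndependent L A) :
    ∃ J : Fin c → ι, Function.Injective J ∧ (Matrix.of fun i j => A i (J j)).det ≠ 0 := by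
  classical
  have h1 : (Matrix.of A).rank = c := by
    simpa using LinearIndependent.rank_matrix (M := Matrix.of A) hA
  obtain ⟨κ, a, ha, hsp, hli⟩ := exists_linearIndependent' L (Matrix.of A).col
  have : Fintype κ := Fintype.ofInjective a ha
  have h2 : Fintype.card κ = c := by
    rw [← finrank_span_eq_card hli, hsp, ← Matrix.rank_eq_finrank_span_cols, h1]
  let e : Fin c ≃ κ := (Fintype.equivFinOfCardEq h2).symm
  refine ⟨fun j => a (e j), ha.comp e.injective, ?_⟩
  have h3 : LinearIndependent L (Matrix.of fun i j => A i (a (e j))).col :=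
    hli.comp e e.injective
  exact ((Matrix.isUnit_iff_isUnit_det _).1 (Matrix.linearIndependent_cols_iff_isUnit.1 h3)).ne_zero

/-- Complementary minors of two orthogonal matrices are proportional. -/
theorem pluecker {α β σ : Type} [Fintype α] [Fintype β] [Fintype σ] [DecidableEq α]
    [DecidableEq β] [DecidableEq σ] (A : Matrix α σ K) (B : Matrix β σ K)
    (h : B * A.transpose = 0) (e e' : α ⊕ β ≃ σ) : ∃ s : ℤ,
      (A.submatrix id (e ∘ inl)).det * (B.submatrix id (e' ∘ inr)).det =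
        s * ((B.submatrix id (e ∘ inr)).det * (A.submatrix id (e' ∘ inl)).det) := by
  let N : Matrix (α ⊕ β) σ K := Matrix.of fun r b =>
    Sum.elim (fun i => if b = e (inl i) then 1 else 0) (fun o => B o b) r
  let W : Matrix σ (α ⊕ β) K :=
    Matrix.of fun b r => Sum.elim (fun i => A i b) (fun o => if b = e' (inr o) then 1 else 0) r
  have h1 : N.submatrix id e = Matrix.fromBlocks 1 0 (B.submatrix id (e ∘ inl))
      (B.submatrix id (e ∘ inr)) := by
    ext (i | i) (j | j) <;> simp [N, Matrix.one_apply, eq_comm]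
  have h2 : W.submatrix e' id = Matrix.fromBlocks (A.submatrix id (e' ∘ inl)).transpose 0
      (A.submatrix id (e' ∘ inr)).transpose 1 := by
    ext (i | i) (j | j) <;> simp [W, Matrix.one_apply]
  have h3 : N * W = Matrix.fromBlocks (A.submatrix id (e ∘ inl)).transpose
      (Matrix.of fun i o => if e' (inr o) = e (inl i) then 1 else 0) 0
      (B.submatrix id (e' ∘ inr)) := by
    ext (i | i) (j | j)
    · simp [N, W, Matrix.mul_apply]
    · simp [N, W, Matrix.mul_apply, eq_comm]
    · simpa [N, W, Matrix.mul_apply] using congrFun (congrFun h i) j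
    · simp [N, W, Matrix.mul_apply]
  have h4 := congrArg Matrix.det (Matrix.submatrix_mul_equiv N W id e' id)
  have h5 := Matrix.det_permute' (e'.trans e.symm) (N.submatrix id e)
  rw [Matrix.submatrix_submatrix, show (e ∘ (e'.trans e.symm) : α ⊕ β → σ) = e' from
    funext fun x => by simp, Function.id_comp, h1, Matrix.det_fromBlocks_zero₁₂, Matrix.det_one,
    one_mul] at h5
  rw [Matrix.det_mul, h5, h2, Matrix.submatrix_id_id, h3, Matrix.det_fromBlocks_zero₁₂,
    Matrix.det_fromBlocks_zero₂₁, Matrix.det_transpose, Matrix.det_transpose, Matrix.det_one,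
    mul_one] at h4
  exact ⟨Equiv.Perm.sign (e'.trans e.symm), by rw [← h4, mul_assoc]⟩

/-- The point and its derivatives. -/
def tan {σ : Type} (D : Fin d → Derivation L K K) (y : σ → K) : Matrix (Unit ⊕ Fin d) σ K :=
  Matrix.of (Sum.elim (fun _ => y) fun i b => D i (y b))

theorem det_tan {σ : Type} (D : Fin d → Derivation L K K) (y : σ → K) (f : Unit ⊕ Fin d → σ)
    (h : y (f (inl ())) ≠ 0) : ((tan D y).submatrix id f).det = y (f (inl ())) ^ (d + 1) *
      (Matrix.of fun i j => D i (y (f (inr j)) / y (f (inl ())))).det := by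
  have h1 : (tan D y).submatrix id f = Matrix.fromBlocks (Matrix.of fun _ _ => y (f (inl ()))) 0
      (Matrix.of fun i _ => D i (y (f (inl ()))))
      (y (f (inl ())) • Matrix.of fun i j => D i (y (f (inr j)) / y (f (inl ())))) *
      Matrix.fromBlocks 1 (Matrix.of fun _ j => y (f (inr j)) / y (f (inl ()))) 0 1 := by
    rw [Matrix.fromBlocks_multiply]
    ext (i | i) (j | j)
    · simp [tan]
    · simp [tan, Matrix.mul_apply, mul_div_cancel₀ _ h]
    · simp [tan]
    · have := (D i).leibniz (y (f (inl ()))) (y (f (inr j)) / y (f (inl ())))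
      rw [mul_div_cancel₀ _ h] at this
      simp [tan, Matrix.mul_apply, this, add_comm, mul_comm]
  rw [h1, Matrix.det_mul, Matrix.det_fromBlocks_zero₁₂, Matrix.det_fromBlocks_zero₂₁,
    Matrix.det_smul, Matrix.det_unique]
  simp [pow_succ', mul_assoc]

theorem hom_det {σ : Type} (G : Fin c → Fin c → MvPolynomial σ L) (e : Fin c → ℕ)
    (h : ∀ i j, (G i j).IsHomogeneous (e i)) : (Matrix.of G).det.IsHomogeneous (∑ i, e i) := by
  rw [← Matrix.det_transpose, Matrix.det_apply']
  refine .sum _ _ _ fun π _ => ?_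
  have := (IsHomogeneous.prod Finset.univ (fun i => G i (π i)) e fun i _ => h i _).C_mul
    ((Equiv.Perm.sign π : ℤ) : L)
  simpa using this

theorem ci_genType [IsAlgClosed L] [CharZero L] {N : ℕ} (hN : c + d = N)
    (F : Fin c → MvPolynomial (Fin (N + 1)) L) (e : Fin c → ℕ) (hF : ∀ i, (F i).IsHomogeneous (e i))
    (he : d + 2 ≤ ∑ i, (e i - 1))
    (smooth : ∀ a : Fin (N + 1) → L, a ≠ 0 → (∀ i, eval a (F i) = 0) →
      LinearIndependent L fun i j => eval a (pderiv j (F i)))
    (z : Fin (N + 1) → K) (hz : z ≠ 0) (hr : rat L z = ⊤) (ht : (d : Cardinal) ≤ Algebra.trdeg L K)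
    (hI : ∀ i, aeval z (F i) = 0) : GenType L K := by
  classical
  have fg : (⊤ : IntermediateField L K).FG := by
    rw [← hr]
    refine IntermediateField.fg_adjoin_of_finite
      ((Set.finite_range fun q : Fin (N + 1) × Fin (N + 1) => z q.1 / z q.2).subset ?_)
    rintro _ ⟨i, j, rfl⟩
    exact ⟨(i, j), rfl⟩
  obtain ⟨s, hs⟩ := fg
  have : Algebra.IsAlgebraic (Algebra.adjoin L (s : Set K)) K := by
    rw [← IntermediateField.isAlgebraic_adjoin_iff_top, hs]
    infer_instance
  obtain ⟨n, hn⟩ := Cardinal.lt_aleph0.1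
    ((Algebra.IsAlgebraic.trdeg_le_cardinalMk L (s : Set K)).trans_lt s.finite_toSet.lt_aleph0)
  obtain ⟨Q, t, ht0, hy⟩ := pBASE L (pFB L) K n N z hz hr hn
  have hf : Form L Q.y = Form L z := hy ▸ ScaleA.form z ht0
  have h0 : ∀ i, Form L Q.y (F i) := fun i => hf ▸ ⟨⟨_, hF i⟩, hI i⟩
  let mn : (Fin c → Fin (N + 1)) → MvPolynomial (Fin (N + 1)) L := fun J =>
    (Matrix.of fun i j => pderiv (J j) (F i)).det
  have mh : ∀ J, (mn J).IsHomogeneous (∑ i, (e i - 1)) := fun J =>
    hom_det _ _ fun i j => (hF i).pderiv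
  have me : ∀ J a, eval a (mn J) = (Matrix.of fun i j => eval a (pderiv (J j) (F i))).det :=
    fun J a => RingHom.map_det _ _
  let A : Matrix (Fin c) (Fin (N + 1)) K := Matrix.of fun i j => aeval Q.y (pderiv j (F i))
  have ma : ∀ J, aeval Q.y (mn J) = (A.submatrix id J).det := fun J => AlgHom.map_det _ _
  have sm : ∀ a, OnY L Q.y a → ∀ k, a k ≠ 0 → ∃ J : Fin c → Fin (N + 1),
      Function.Injective J ∧ (∀ j, J j ≠ k) ∧ eval a (mn J) ≠ 0 := fun a ha k hk => by
    have h1 := Fintype.linearIndependent_iff.1 (smooth a ha.1 fun i => ha.2 _ (h0 i))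
    obtain ⟨J, h2, h3⟩ := exists_minor (fun i (j : {j // j ≠ k}) => eval a (pderiv j.1 (F i)))
      (Fintype.linearIndependent_iff.2 fun g hg => h1 g (funext fun j => by
        have h4 : ∀ j, j ≠ k → ∑ i, g i * eval a (pderiv j (F i)) = 0 := fun j hj => by
          simpa using congrFun hg ⟨j, hj⟩
        have h5 : ∑ j, (∑ i, g i * eval a (pderiv j (F i))) * a j = 0 := by
          simp only [Finset.sum_mul, mul_assoc]
          rw [Finset.sum_comm]
          refine Finset.sum_eq_zero fun i _ => ?_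
          rw [← Finset.mul_sum]
          exact mul_eq_zero_of_right _ (JacA.euler (K := L) a (hF i) (ha.2 _ (h0 i)))
        rw [Finset.sum_eq_single k (fun j _ hj => by rw [h4 j hj, zero_mul]) (by simp)] at h5
        by_cases hj : j = k
        · simpa [hj, hk] using h5
        · simpa using h4 j hj))
    exact ⟨fun j => J j, Subtype.val_injective.comp h2, fun j => (J j).2, me _ a ▸ h3⟩
  obtain ⟨D, hD, -⟩ := exists_basis_der (L := L) Q.x
    (isTranscendenceBasis_iff_algebraicIndependent_isAlgebraic.2 ⟨Q.indx, Q.alg⟩)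
  have orth : tan D Q.y * A.transpose = 0 := by
    ext (i | i) j
    · simpa [tan, A, Matrix.mul_apply, mul_comm] using JacA.euler Q.y (hF j) (h0 j).2
    · have := JacA.chain (D i) Q.y (F j)
      rw [(h0 j).2, map_zero] at this
      simpa [tan, A, Matrix.mul_apply, mul_comm] using this.symm
  have inj : Function.Injective Q.e := fun i i' h => by
    have := Q.f_e i
    rw [h, Q.f_e, sub_right_inj] at this
    exact (Option.some.inj (X_injective this)).symm
  let f₀ : Unit ⊕ Fin n → Fin (N + 1) := Sum.elim (fun _ => Q.e 0) fun i => Q.e i.succ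
  have inj₀ : Function.Injective f₀ := by
    rintro (i | i) (j | j) h
    · rfl
    · exact absurd (inj h).symm (Fin.succ_ne_zero _)
    · exact absurd (inj h) (Fin.succ_ne_zero _)
    · exact congrArg _ (Fin.succ_injective _ (inj h))
  have d₀ : ((tan D Q.y).submatrix id f₀).det = 1 := by
    rw [det_tan D Q.y f₀ (Q.y0 ▸ one_ne_zero), show (Matrix.of fun i j =>
      D i (Q.y (f₀ (inr j)) / Q.y (f₀ (inl ())))) = 1 from Matrix.ext fun i j => by
        rw [Matrix.of_apply, show Q.y (f₀ (inl ())) = 1 from Q.y0, div_one, Matrix.one_apply]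
        exact (hD i j).trans (if_congr eq_comm rfl rfl), show Q.y (f₀ (inl ())) = 1 from Q.y0]
    simp
  obtain ⟨J₁, i₁, n₁⟩ : ∃ J, Function.Injective J ∧ (A.submatrix id J).det ≠ 0 := by
    by_contra h
    refine bot_ne_top (pLOCG L K _ Q.y (Q.e 0) (Q.y0 ▸ one_ne_zero) ⊥ fun a ha h1 => ?_)
    obtain ⟨J, h2, -, h3⟩ := sm a ha _ (h1 ▸ one_ne_zero)
    exact absurd (ha.2 _ ⟨⟨_, mh J⟩, by_contra fun h' => h ⟨J, h2, ma J ▸ h'⟩⟩) h3
  obtain rfl : n = d := by
    refine le_antisymm ?_ (by exact_mod_cast hn ▸ ht)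
    have r1 := Matrix.rank_add_rank_le_card_of_mul_eq_zero orth
    have r2 := Matrix.rank_submatrix_le (tan D Q.y).transpose f₀ (Equiv.refl _)
    have r3 := Matrix.rank_submatrix_le A.transpose J₁ (Equiv.refl _)
    rw [Matrix.rank_of_isUnit _ ((Matrix.isUnit_iff_isUnit_det _).2 (by
      rw [← Matrix.det_transpose]; exact d₀ ▸ isUnit_one)), Matrix.rank_transpose] at r2
    rw [Matrix.rank_of_isUnit _ ((Matrix.isUnit_iff_isUnit_det _).2 (by
      rw [← Matrix.det_transpose]; exact n₁.isUnit))] at r3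
    simp only [Fintype.card_sum, Fintype.card_unit, Fintype.card_fin] at r1 r2 r3
    omega
  let e₀ : Fin c ⊕ (Unit ⊕ Fin n) ≃ Fin (N + 1) := Fintype.equivFinOfCardEq (by simp; omega)
  have ext : ∀ {β : Type} [Finite β] (f : β → Fin c ⊕ (Unit ⊕ Fin n)) (g : β → Fin (N + 1)),
      Function.Injective f → Function.Injective g →
        ∃ ε : Fin c ⊕ (Unit ⊕ Fin n) ≃ Fin (N + 1), ∀ b, ε (f b) = g b := fun f g h1 h2 => by
    obtain ⟨π, hπ⟩ := Equiv.Perm.exists_extending_pair (f := e₀ ∘ f) (g := g)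
      (e₀.injective.comp h1) h2
    exact ⟨e₀.trans π, hπ⟩
  obtain ⟨e₁, he₁⟩ := ext inl J₁ inl_injective i₁
  replace he₁ : e₁ ∘ inl = J₁ := funext he₁
  set η := ((tan D Q.y).submatrix id (e₁ ∘ inr)).det / (A.submatrix id J₁).det with hη
  have eη : ∀ ε : Fin c ⊕ (Unit ⊕ Fin n) ≃ Fin (N + 1), ∃ s : ℤ,
      η * (A.submatrix id (ε ∘ inl)).det = s * ((tan D Q.y).submatrix id (ε ∘ inr)).det :=
    fun ε => by
      obtain ⟨s, hs⟩ := pluecker A _ orth ε e₁
      exact ⟨s, by rw [hη, div_mul_eq_mul_div, mul_comm, hs, he₁, ← mul_assoc,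
        mul_div_cancel_right₀ _ n₁]⟩
  have η0 : η ≠ 0 := by
    obtain ⟨e₂, he₂⟩ := ext inr f₀ inr_injective inj₀
    obtain ⟨s, hs⟩ := pluecker A _ orth e₁ e₂
    rw [he₁, show e₂ ∘ inr = f₀ from funext he₂, d₀, mul_one] at hs
    exact div_ne_zero (left_ne_zero_of_mul (right_ne_zero_of_mul (hs ▸ n₁))) n₁
  have key : ∀ i, η * Q.y i ∈ canSec L Q.y D 1 := fun i a ha => by
    obtain ⟨k, hk⟩ := Function.ne_iff.1 ha.1
    obtain ⟨J, h1, h2, h3⟩ := sm a ha k hk
    obtain ⟨ε, hε⟩ := ext (Sum.elim inl fun _ : Unit => inr (inl ())) (Sum.elim J fun _ => k)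
      (by rintro (_ | _) (_ | _) h <;> simp_all) (by
        rintro (x | _) (y | _) h
        · exact congrArg _ (h1 h)
        · exact absurd h (h2 x)
        · exact absurd h.symm (h2 y)
        · rfl)
    obtain rfl : ε ∘ inl = J := funext fun j => hε (inl j)
    obtain rfl : ε (inr (inl ())) = k := hε (inr ())
    have n1 : Q.y (ε (inr (inl ()))) ≠ 0 := fun h => hk (by
      simpa using ha.2 (X _) ⟨⟨_, isHomogeneous_X _ _⟩, by simpa using h⟩)
    have n2 : aeval Q.y (mn (ε ∘ inl)) ≠ 0 := fun h => h3 (ha.2 _ ⟨⟨_, mh _⟩, h⟩)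
    obtain ⟨s, hs⟩ := eη ε
    rw [det_tan D Q.y (ε ∘ inr) n1, ← ma] at hs
    refine AddSubgroup.subset_closure ⟨_, fun _ j => Q.y (ε (inr (inr j))) / Q.y (ε (inr (inl ()))),
      ⟨_, C (s : L) * (X i * X (Q.e 0) ^ (∑ i, (e i - 1) - (n + 2)) *
        X (ε (inr (inl ()))) ^ (n + 1)), mn (ε ∘ inl), ?_, mh _, h3, rfl⟩,
      fun _ j => ⟨1, X (ε (inr (inr j))), X (ε (inr (inl ()))), isHomogeneous_X _ _,
        isHomogeneous_X _ _, by simpa using hk, by simp⟩, ?_⟩
    · convert (((isHomogeneous_X L i).mul (isHomogeneous_X_pow (Q.e 0) _)).mul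
        (isHomogeneous_X_pow _ (n + 1))).C_mul _ using 1
      omega
    · rw [eq_comm, div_mul_eq_mul_div, div_eq_iff n2]
      simp only [map_mul, map_pow, aeval_X, map_intCast, Q.y0, one_pow, mul_one,
        Fin.prod_univ_one]
      simp only [Function.comp_apply] at hs
      linear_combination -Q.y i * hs
  refine ⟨n, N + 1, Q.y, hy ▸ ((pSCALE L) K n _ z t ht0).1 ⟨hz, hr, hn, fun a ha => ?_⟩,
    D, 1, η * Q.y (Q.e 0), fun i => η * Q.x i, one_pos, by simpa [Q.y0] using η0, key _,
    fun i => key _, ?_⟩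
  · obtain ⟨J, -, h⟩ := exists_minor _ (smooth a ha.1 fun i => ha.2 _ (hf ▸ h0 i))
    exact ⟨c, F, J, by omega, fun i => hf ▸ h0 i, h⟩
  · simp only [Q.y0, mul_one, mul_div_cancel_left₀ _ η0]
    exact Q.indx

end Pool.Agent.P.MP_440ce3_nt.LV
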