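import Pool.Agent.P.MP_6f117a_ag.PJ.Final

/-! Finiteness of the rational curves on a projective variety all of whose subvarieties of
dimension at least two are of general type. -/

set_option autoImplicit false

namespace Pool.Agent.P.MP_440ce3_nt.LV

open MvPolynomial Pool.Agent.P.MP_6f117a_ag PJ WithZero
open scoped IntermediateField

universe u

section closed

variable {L : Type u} [Field L] [IsAlgClosed L] [CharZero L] {n : ℕ}

theorem ff_rat : FF L (RatFunc L) :=
  FF.of_fg (rational_ff (L := L) RatFunc.transcendental_X RatFunc.adjoin_X).1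
    (rational_ff (L := L) RatFunc.transcendental_X RatFunc.adjoin_X).2.le

theorem genus_rat : genus L (RatFunc L) = 0 := by
  have := ff_rat (L := L)
  obtain ⟨D, hD, -⟩ := exists_dt (L := L) RatFunc.transcendental_X
  have D0 : D ≠ 0 := by rintro rfl; simp at hD
  rw [genus_eq D0, (Submodule.eq_bot_iff (can D)).2 fun x hx => eq_zero_of_rational
    RatFunc.transcendental_X RatFunc.adjoin_X D0 one_pos (by simpa using mem_can.1 hx),
    finrank_bot]

theorem degree_pos {K : Type u} [Field K] [Algebra L K] [FF L K] (y : Fin (n + 1) → K)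
    {i j : Fin (n + 1)} (hi : y i ≠ 0) (ht : Transcendental L (y j / y i)) : 0 < degree L y := by
  obtain ⟨Z, hZ, e⟩ := degree_eq (L := L) hi
  obtain ⟨P, hP⟩ := exists_pole ht
  have hj : y j ≠ 0 := left_ne_zero_of_mul (div_eq_mul_inv (y j) (y i) ▸ trans_ne ht)
  refine e ▸ Finset.sum_pos' (fun Q _ => le_log_of_exp_le ?_) ⟨P, ?_,
    lt_log_of_exp_lt (hP.trans_le
      (Finset.le_sup (f := fun j => P.v (y j / y i)) (Finset.mem_univ j)))⟩
  · simpa [hi] using Finset.le_sup (f := fun j => Q.v (y j / y i)) (Finset.mem_univ i)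
  · by_contra hc
    simp [not_not.1 (mt (hZ P i hi) hc), not_not.1 (mt (hZ P j hj) hc)] at hP

theorem form_eq {K K' : Type u} [Field K] [Algebra L K] [Field K'] [Algebra L K']
    {x : Fin n → K} {ξ : Fin n → K'} (hK : Algebra.trdeg L K ≤ 1) (h : OnV L x ξ) {i j : Fin n}
    (hi : ξ i ≠ 0) (ht : Transcendental L (ξ j / ξ i)) : Form L ξ = Form L x := by
  ext G
  refine ⟨fun ⟨⟨e, he⟩, h0⟩ => ⟨⟨e, he⟩, by_contra fun h1 => ht ?_⟩, fun hG => ⟨hG.1, h G hG⟩⟩
  obtain ⟨η, h2, h3⟩ := TGEN.rat_top (L := L) ξ hi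
  have key : ∀ (F : MvPolynomial (Fin n) L) (a : ℕ), F.IsHomogeneous a → aeval ξ F = 0 →
      aeval η F = 0 := fun F a hF hF0 => by
    rw [← map_eq_zero (rat L ξ).val, MvPolynomial.comp_aeval_apply]
    have := TTD.scale hF (ξ i) ξ
    rw [hF0, zero_div] at this
    rw [← this]
    congr 2
    exact funext h2
  have h4 := t_TD L K (rat L ξ) n 0 x η G e (fun e => by
      have := h2 i
      rw [e, div_self hi] at this
      exact zero_ne_one this)
    (fun F hF => hF.1.elim fun a ha => key F a ha (h F hF)) he h1 (key G e he h0)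
    (by simpa using hK) h3
  have h5 := trdeg_eq_zero_iff.1 (le_antisymm (by simpa using h4) zero_le)
  exact h2 j ▸ (h5.isAlgebraic (η j)).algHom (rat L ξ).val

theorem fin_forms (S : Set (MvPolynomial (Fin (n + 1)) L)) (hS : ∀ F ∈ S, ∃ e, F.IsHomogeneous e)
    (h : ∀ (K : Type u) [Field K] [Algebra L K] (x : Fin (n + 1) → K), x ≠ 0 → rat L x = ⊤ →
      (∀ F ∈ S, aeval x F = 0) → Algebra.trdeg L K ≤ 1 ∨ GenType L K) :
    {Φ | ∃ ξ : Fin (n + 1) → RatFunc L, (∃ i j, ξ i ≠ 0 ∧ Transcendental L (ξ j / ξ i)) ∧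
      (∀ F ∈ S, aeval ξ F = 0) ∧ Φ = Form L ξ}.Finite := by
  have := ff_rat (L := L)
  choose P hP hH hF using fun ξ => (t_GEN L (n + 1)).2 (RatFunc L) ξ
  let A : Ideal (MvPolynomial (Fin (n + 1)) L) → Set (MvPolynomial (Fin (n + 1)) L → Prop) :=
    fun I => {Φ | ∃ ξ : Fin (n + 1) → RatFunc L,
      (∃ i j, ξ i ≠ 0 ∧ Transcendental L (ξ j / ξ i)) ∧ I ≤ P ξ ∧ Φ = Form L ξ}
  suffices H : ∀ I, Ideal.span S ≤ I → (A I).Finite by
    refine (H _ le_rfl).subset ?_
    rintro _ ⟨ξ, h1, h2, rfl⟩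
    exact ⟨ξ, h1, Ideal.span_le.2 fun F hF' => (hS F hF').elim fun e he =>
      (hF ξ F e he).1 (h2 F hF'), rfl⟩
  intro I
  induction I using IsNoetherian.induction with
  | hgt I ih =>
    intro hI
    have key : ∀ G ∉ I, (A (I ⊔ Ideal.span {G})).Finite := fun G hG =>
      ih _ (lt_of_le_of_ne le_sup_left fun e =>
        hG (e ▸ Ideal.mem_sup_right (Ideal.mem_span_singleton_self G))) (hI.trans le_sup_left)
    have sub : ∀ {G ξ}, I ≤ P ξ → G ∈ P ξ → I ⊔ Ideal.span {G} ≤ P ξ := fun h1 h2 =>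
      sup_le h1 ((Ideal.span_singleton_le_iff_mem _).2 h2)
    by_cases ht : I = ⊤
    · refine Set.finite_empty.subset ?_
      rintro _ ⟨ξ, -, h2, -⟩
      exact (hP ξ).ne_top (top_le_iff.1 (ht ▸ h2))
    by_cases hp : Ideal.IsPrime I
    · by_cases hh : TNOE.hull I = I
      · by_cases hX : ∃ i, X i ∉ I
        · obtain ⟨K, _, _, x, x0, xr, hx⟩ := (t_GEN L (n + 1)).1 I hp
            (fun F hF e => hh ▸ Ideal.subset_span ⟨F, hF, e, rfl⟩) hX
          have on : ∀ {ξ}, I ≤ P ξ → OnV L x ξ := fun {ξ} h2 G ⟨⟨e, he⟩, h0⟩ =>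
            (hF ξ G e he).2 (h2 ((hx G e he).1 h0))
          rcases h K x x0 xr (fun F hF' => (hS F hF').elim fun e he =>
            (hx F e he).2 (hI (Ideal.subset_span hF'))) with h1 | h1
          · refine (Set.finite_singleton (Form L x)).subset ?_
            rintro _ ⟨ξ, ⟨i, j, hi, hj⟩, h2, rfl⟩
            exact form_eq h1 (on h2) hi hj
          · obtain ⟨α, e, G, g1, g2, g3⟩ := lv_all L K n x x0 xr h1
            refine (key G fun hG => g2 ((hx G e g1).2 hG)).subset ?_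
            rintro _ ⟨ξ, ⟨i, j, hi, hj⟩, h2, rfl⟩
            refine ⟨ξ, ⟨i, j, hi, hj⟩, sub h2 ((hF ξ G e g1).1 (by_contra fun h3 => ?_)), rfl⟩
            have h4 := g3 (RatFunc L) ξ (fun e => hi (congrFun e i)) (on h2) h3
            rw [genus_rat, Nat.cast_zero, mul_zero] at h4
            exact h4.not_gt (degree_pos ξ hi hj)
        · refine Set.finite_empty.subset ?_
          rintro _ ⟨ξ, ⟨i, j, hi, -⟩, h2, -⟩
          exact hi (by simpa using (hF ξ (X i) 1 (isHomogeneous_X L i)).2 (h2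
            (by_contra fun h3 => hX ⟨i, h3⟩)))
      · refine (ih (TNOE.hull I) (lt_of_le_of_ne (TNOE.le_hull I) (Ne.symm hh))
          (hI.trans (TNOE.le_hull I))).subset ?_
        rintro _ ⟨ξ, h1, h2, rfl⟩
        exact ⟨ξ, h1, TNOE.hull_le (hH ξ) h2, rfl⟩
    · obtain ⟨a, ha, b, hb, hab⟩ := (Ideal.not_isPrime_iff.1 hp).resolve_left ht
      refine ((key a ha).union (key b hb)).subset ?_
      rintro _ ⟨ξ, h1, h2, rfl⟩
      exact ((hP ξ).mem_or_mem (h2 hab)).imp (fun h3 => ⟨ξ, h1, sub h2 h3, rfl⟩)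
        fun h3 => ⟨ξ, h1, sub h2 h3, rfl⟩

end closed

end Pool.Agent.P.MP_440ce3_nt.LV
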