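import Pool.Agent.P.MP_440ce3_nt.LV.Param
import Pool.Agent.P.MP_440ce3_nt.LV.CI

/-! Finitely many rational curves on the smooth surface sections of the Fermat quintic. -/

set_option autoImplicit false

namespace Pool.Agent.P.MP_440ce3_nt.LV

open MvPolynomial Pool.Agent.P.MP_6f117a_ag PJ
open scoped Polynomial

universe u

/-- The equation of the threefold. -/
noncomputable def fer (k : Type u) [Field k] : MvPolynomial (Fin 5) k :=
  X 0 ^ 5 + X 1 ^ 5 + X 2 ^ 5 + X 3 ^ 5 - X 4 ^ 5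

theorem fer_hom (k : Type u) [Field k] : (fer k).IsHomogeneous 5 :=
  ((((isHomogeneous_X_pow _ 5).add (isHomogeneous_X_pow _ 5)).add (isHomogeneous_X_pow _ 5)).add
    (isHomogeneous_X_pow _ 5)).sub (isHomogeneous_X_pow _ 5)

theorem main (k : Type u) [Field k] [CharZero k] (h : MvPolynomial (Fin 5) k) (e : ℕ)
    (he : h.IsHomogeneous e)
    (smooth : ∀ p : Fin 5 → AlgebraicClosure k, p ≠ 0 →
      p 0 ^ 5 + p 1 ^ 5 + p 2 ^ 5 + p 3 ^ 5 = p 4 ^ 5 → aeval p h = 0 →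
        LinearIndependent (AlgebraicClosure k)
          ![![p 0 ^ 4, p 1 ^ 4, p 2 ^ 4, p 3 ^ 4, -p 4 ^ 4], fun j => aeval p (pderiv j h)]) :
    ∃ S : Finset (Fin 5 → k[X]),
      (∀ y ∈ S, y 0 ^ 5 + y 1 ^ 5 + y 2 ^ 5 + y 3 ^ 5 = y 4 ^ 5 ∧ aeval y h = 0) ∧
      ∀ x : Fin 5 → RatFunc k,
      x 0 ^ 5 + x 1 ^ 5 + x 2 ^ 5 + x 3 ^ 5 = x 4 ^ 5 → aeval x h = 0 →
        (¬∃ (c : Fin 5 → k) (g : RatFunc k), ∀ i, x i = c i • g) →
          ∃ y ∈ S, ∃ g r : RatFunc k, ∀ i, x i = g * Polynomial.aeval r (y i) := by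
  obtain ⟨S, hS⟩ := param (n := 4) {fer k, h} (by
    rintro _ (rfl | rfl)
    exacts [⟨5, fer_hom k⟩, ⟨e, he⟩]) fun K _ _ x h1 h2 h3 => by
      refine (le_or_gt _ 1).imp_right fun h4 => ?_
      refine ci_genType (c := 2) (d := 2) rfl ![fer _, map (algebraMap k _) h] ![5, e]
        (Fin.forall_fin_two.2 ⟨fer_hom _, he.map _⟩) (by simp) (fun a a0 ha => ?_) x h1 h2
        (by simpa using Cardinal.two_le_iff_one_lt.2 h4)
        (Fin.forall_fin_two.2 ⟨by simpa [fer] using h3 _ (.inl rfl), h3 _ (.inr rfl)⟩)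
      have h5 := smooth a a0 (by simpa [fer, sub_eq_zero] using ha 0)
        (by simpa [eval_map, aeval_def] using ha 1)
      have h6 := h5.units_smul ![Units.mk0 5 (by norm_num), 1]
      convert h6 using 1
      funext i j
      fin_cases i
      · fin_cases j <;> simp [fer, pderiv_X, Units.smul_def]
      · simp [pderiv_map, eval_map, aeval_def]
  exact ⟨S, fun y hy => ⟨by simpa [fer, sub_eq_zero] using hS.1 y hy _ (.inl rfl),
    hS.1 y hy _ (.inr rfl)⟩, fun x h1 h2 => hS.2 x (by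
    rintro _ (rfl | rfl)
    exacts [by simpa [fer, sub_eq_zero] using h1, h2])⟩

end Pool.Agent.P.MP_440ce3_nt.LV
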