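import Pool.Agent.P.MP_440ce3_nt.LV.Fin

/-! Rational curves with the same equations differ by a change of the parameter. -/

set_option autoImplicit false

namespace Pool.Agent.P.MP_440ce3_nt.LV

open MvPolynomial Pool.Agent.P.MP_6f117a_ag PJ
open scoped IntermediateField Polynomial

universe u

variable {k : Type u} [Field k] {n : ℕ}

/-- Two points with the same equations have the same field of ratios. -/
theorem exists_hom {K K' : Type u} [Field K] [Algebra k K] [Field K'] [Algebra k K']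
    {x : Fin n → K} {x' : Fin n → K'} (h : Form k x = Form k x') {i : Fin n} (hi : x i ≠ 0)
    (hr : rat k x = ⊤) : ∃ ψ : K →ₐ[k] K', ∀ j, ψ (x j / x i) = x' j / x' i := by
  have hi' : x' i ≠ 0 := fun e => hi (by
    simpa using (h.ge (X i) ⟨⟨1, isHomogeneous_X k i⟩, by simpa using e⟩).2)
  let a : MvPolynomial (Fin n) k →ₐ[k] K := aeval fun j => x j / x i
  let a' : MvPolynomial (Fin n) k →ₐ[k] K' := aeval fun j => x' j / x' i
  have ker : ∀ F, a F = 0 ↔ a' F = 0 := fun F =>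
    ⟨TTD.spec (fun G hG => (h.le G hG).2) hi hi' F, TTD.spec (fun G hG => (h.ge G hG).2) hi' hi F⟩
  let e := Ideal.quotientKerAlgEquivOfSurjective a.rangeRestrict_surjective
  let b : a.range →ₐ[k] K' := (Ideal.Quotient.liftₐ _ a' fun F hF =>
    (ker F).1 (congrArg Subtype.val hF)).comp e.symm.toAlgHom
  have hb : ∀ F, b (a.rangeRestrict F) = a' F := fun F => by
    have : e.symm (a.rangeRestrict F) = Ideal.Quotient.mk _ F := e.symm_apply_eq.2 rfl
    simp [b, this]
  have inj : Function.Injective b := (injective_iff_map_eq_zero _).2 fun y hy => by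
    obtain ⟨F, rfl⟩ := a.rangeRestrict_surjective y
    exact Subtype.ext ((ker F).2 (hb F ▸ hy))
  have top : IntermediateField.adjoin k (Set.range fun j => x j / x i) = ⊤ := by
    rw [eq_top_iff, ← hr, PJ.rat, IntermediateField.adjoin_le_iff]
    rintro _ ⟨l, m, rfl⟩
    rw [← div_div_div_cancel_right₀ hi]
    exact div_mem (IntermediateField.subset_adjoin _ _ ⟨l, rfl⟩)
      (IntermediateField.subset_adjoin _ _ ⟨m, rfl⟩)
  have : IsFractionRing a.range K := IsFractionRing.of_field _ _ fun z => by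
    obtain ⟨R, S, h⟩ := (IntermediateField.mem_adjoin_range_iff k _ z).1 (top.ge trivial)
    exact ⟨a.rangeRestrict R, a.rangeRestrict S, h⟩
  refine ⟨IsFractionRing.liftAlgHom inj, fun j => ?_⟩
  have := IsFractionRing.lift_algebraMap (K := K) (g := (b : a.range →+* K')) inj
    (a.rangeRestrict (X j))
  simpa [a, a'] using this.trans (hb _)

theorem exists_param {x : Fin n → RatFunc k} {i j : Fin n} (hi : x i ≠ 0)
    (ht : Transcendental k (x j / x i)) : ∃ y : Fin n → k[X],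
      (∀ G, Form k x G → aeval y G = 0) ∧ ∀ x' : Fin n → RatFunc k, Form k x = Form k x' →
        ∃ g r : RatFunc k, ∀ l, x' l = g * Polynomial.aeval r (y l) := by
  obtain ⟨η, h1, h2⟩ := TGEN.rat_top (L := k) x hi
  have hE : rat k x ≠ ⊥ := fun e => by
    obtain ⟨c, hc⟩ := IntermediateField.mem_bot.1 (e.le (η j).2)
    exact ht (by rw [← h1 j, ← hc]; exact isAlgebraic_algebraMap c)
  let e := RatFunc.Luroth.algEquiv hE
  obtain ⟨⟨q, hq⟩, hy⟩ := IsLocalization.exist_integer_multiples_of_finite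
    (nonZeroDivisors k[X]) fun l => e.symm (η l)
  choose y hy using hy
  have η1 : η i = 1 := Subtype.ext (by simp [h1, hi])
  have hf : Form k η = Form k x := by
    ext G
    refine and_congr_right fun ⟨a, ha⟩ => ?_
    rw [← map_eq_zero (rat k x).val, MvPolynomial.comp_aeval_apply,
      show (fun l => (rat k x).val (η l)) = fun l => x l / x i from funext h1, TTD.scale ha,
      div_eq_zero_iff, or_iff_left (pow_ne_zero _ hi)]
  refine ⟨y, fun G hG => RatFunc.algebraMap_injective k ?_, fun x' hx' => ?_⟩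
  · obtain ⟨a, ha⟩ := hG.1
    have h3 := MvPolynomial.comp_aeval_apply η e.symm.toAlgHom G
    rw [(hf.ge G hG).2, map_zero] at h3
    refine (MvPolynomial.comp_aeval_apply y (IsScalarTower.toAlgHom k k[X] (RatFunc k)) G).trans ?_
    have h4 := TGEN.aeval_scale ha (algebraMap k[X] (RatFunc k) q) fun l => e.symm.toAlgHom (η l)
    rw [← h3, zero_mul] at h4
    rw [map_zero, ← h4]
    congr 2
    funext l
    exact (hy l).trans ((Algebra.smul_def _ _).trans (mul_comm _ _))
  obtain ⟨ψ, hψ⟩ := exists_hom (hf.trans hx') (η1 ▸ one_ne_zero) h2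
  have hi' : x' i ≠ 0 := fun e => hi (by
    simpa using (hx'.ge (X i) ⟨⟨1, isHomogeneous_X k i⟩, by simpa using e⟩).2)
  let θ : RatFunc k →ₐ[k] RatFunc k := ψ.comp e.toAlgHom
  have hθ : ∀ p : k[X], θ (algebraMap _ _ p) = Polynomial.aeval (θ RatFunc.X) p := fun p => by
    rw [Polynomial.aeval_algHom_apply, RatFunc.aeval_X_left_eq_algebraMap]
  have q0 : θ (algebraMap _ _ q) ≠ 0 := by simpa using nonZeroDivisors.ne_zero hq
  refine ⟨x' i / θ (algebraMap _ _ q), θ RatFunc.X, fun l => ?_⟩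
  have h3 : θ (e.symm (η l)) = x' l / x' i := by simpa [θ, η1] using hψ l
  rw [← hθ, hy l, Algebra.smul_def, map_mul, h3]
  field_simp

theorem finite_param (A : Set (Fin n → RatFunc k))
    (hA : ∀ x ∈ A, ∃ i j, x i ≠ 0 ∧ Transcendental k (x j / x i))
    (hf : ((fun x => Form k x) '' A).Finite) : ∃ S : Finset (Fin n → k[X]),
      (∀ y ∈ S, ∃ x ∈ A, ∀ G, Form k x G → aeval y G = 0) ∧ ∀ x ∈ A, ∃ y ∈ S,
        ∃ g r : RatFunc k, ∀ l, x l = g * Polynomial.aeval r (y l) := by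
  classical
  have : ∀ Φ ∈ (fun x => Form k x) '' A, ∃ y : Fin n → k[X],
      (∀ G, Φ G → aeval y G = 0) ∧ ∀ x' : Fin n → RatFunc k, Φ = Form k x' →
        ∃ g r : RatFunc k, ∀ l, x' l = g * Polynomial.aeval r (y l) := by
    rintro _ ⟨x, hx, rfl⟩
    obtain ⟨i, j, hi, ht⟩ := hA x hx
    exact exists_param hi ht
  choose! y hy using this
  refine ⟨hf.toFinset.image y, fun z hz => ?_, fun x hx => ⟨_, Finset.mem_image_of_mem y
    (hf.mem_toFinset.2 ⟨x, hx, rfl⟩), (hy _ ⟨x, hx, rfl⟩).2 x rfl⟩⟩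
  obtain ⟨_, h1, rfl⟩ := Finset.mem_image.1 hz
  obtain ⟨x, hx, rfl⟩ := hf.mem_toFinset.1 h1
  exact ⟨x, hx, (hy _ ⟨x, hx, rfl⟩).1⟩

theorem nonconst {x : Fin n → RatFunc k} (h : ¬∃ (c : Fin n → k) (g : RatFunc k), ∀ i, x i = c i • g) :
    ∃ i j, x i ≠ 0 ∧ Transcendental k (x j / x i) := by
  by_contra hc
  push Not at hc
  by_cases h0 : ∃ i, x i ≠ 0
  · obtain ⟨i, hi⟩ := h0
    choose c hc' using fun j => not_not.1 (mt (RatFunc.transcendental_of_ne_C _) (hc i j hi))
    refine h ⟨c, x i, fun j => ?_⟩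
    rw [RatFunc.smul_eq_C_mul, ← hc', div_mul_cancel₀ _ hi]
  · push Not at h0
    exact h ⟨0, 0, fun i => by simp [h0]⟩

theorem param [CharZero k] (S : Set (MvPolynomial (Fin (n + 1)) k))
    (hS : ∀ F ∈ S, ∃ e, F.IsHomogeneous e)
    (h : ∀ (K : Type u) [Field K] [Algebra (AlgebraicClosure k) K] (x : Fin (n + 1) → K), x ≠ 0 →
      rat (AlgebraicClosure k) x = ⊤ →
      (∀ F ∈ S, aeval x (map (algebraMap k (AlgebraicClosure k)) F) = 0) →
      Algebra.trdeg (AlgebraicClosure k) K ≤ 1 ∨ GenType (AlgebraicClosure k) K) :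
    ∃ T : Finset (Fin (n + 1) → k[X]), (∀ y ∈ T, ∀ F ∈ S, aeval y F = 0) ∧
      ∀ x : Fin (n + 1) → RatFunc k, (∀ F ∈ S, aeval x F = 0) →
      (¬∃ (c : Fin (n + 1) → k) (g : RatFunc k), ∀ i, x i = c i • g) →
        ∃ y ∈ T, ∃ g r : RatFunc k, ∀ l, x l = g * Polynomial.aeval r (y l) := by
  set L := AlgebraicClosure k
  let φ : RatFunc k →ₐ[k] RatFunc L := IsFractionRing.liftAlgHom (A := k[X])
    (g := Polynomial.aeval RatFunc.X) (transcendental_iff_injective.1
      (RatFunc.transcendental_X.restrictScalars (algebraMap k L).injective))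
  have hφ : ∀ (x : Fin (n + 1) → RatFunc k) (F : MvPolynomial (Fin (n + 1)) k),
      aeval (fun i => φ (x i)) (map (algebraMap k L) F) = 0 ↔ aeval x F = 0 := fun x F => by
    rw [aeval_map_algebraMap, ← MvPolynomial.comp_aeval_apply, map_eq_zero]
  have fin := fin_forms (map (algebraMap k L) '' S)
    (by rintro _ ⟨F, hF, rfl⟩; exact (hS F hF).imp fun e he => he.map _)
    fun K _ _ x h1 h2 h3 => h K x h1 h2 fun F hF => h3 _ ⟨F, hF, rfl⟩
  obtain ⟨T, hT⟩ := finite_param {x | (∀ F ∈ S, aeval x F = 0) ∧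
    ¬∃ (c : Fin (n + 1) → k) (g : RatFunc k), ∀ i, x i = c i • g} (fun x hx => nonconst hx.2)
    ((fin.image fun Φ G => (∃ e, G.IsHomogeneous e) ∧ Φ (map (algebraMap k L) G)).subset (by
      rintro _ ⟨x, hx, rfl⟩
      obtain ⟨i, j, hi, ht⟩ := nonconst hx.2
      refine ⟨_, ⟨fun i => φ (x i), ⟨i, j, by simpa using hi, ?_⟩, ?_, rfl⟩, ?_⟩
      · rw [← map_div₀]
        exact (show Transcendental k _ from
          (isAlgebraic_algHom_iff φ φ.injective).not.2 ht).extendScalars L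
      · rintro _ ⟨F, hF, rfl⟩
        exact (hφ x F).2 (hx.1 F hF)
      · ext G
        exact and_congr_right fun ⟨e, he⟩ => (and_iff_right ⟨e, he.map _⟩).trans (hφ x G)))
  exact ⟨T, fun y hy F hF => (hT.1 y hy).elim fun x hx => hx.2 F ⟨hS F hF, hx.1.1 F hF⟩,
    fun x h1 h2 => hT.2 x ⟨h1, h2⟩⟩

end Pool.Agent.P.MP_440ce3_nt.LV
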